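import Mathlib

set_option autoImplicit false

open Polynomial

namespace Pool.Agent.U757.WG

/-- a matrix with a given monic characteristic polynomial -/
theorem exists_companion {O : Type} [CommRing O] [Nontrivial O] (f : O[X]) (hf : f.Monic) :
    ∃ (d : ℕ) (B : Matrix (Fin d) (Fin d) O), B.charpoly = f := by
  let pb := AdjoinRoot.powerBasis' hf
  have hdim : pb.dim = f.natDegree := rfl
  let B : Matrix (Fin pb.dim) (Fin pb.dim) O := Algebra.leftMulMatrix pb.basis pb.gen
  have h1 : aeval pb.gen B.charpoly = 0 := by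
    apply (injective_iff_map_eq_zero (Algebra.leftMulMatrix pb.basis)).mp
      (Algebra.leftMulMatrix_injective pb.basis)
    rw [← Polynomial.aeval_algHom_apply]
    exact Matrix.aeval_self_charpoly B
  have hgen : pb.gen = AdjoinRoot.root f := AdjoinRoot.powerBasis'_gen hf
  rw [hgen, AdjoinRoot.aeval_eq, AdjoinRoot.mk_eq_zero] at h1
  refine ⟨_, B, ?_⟩
  have h2 : B.charpoly.natDegree = f.natDegree := by
    rw [Matrix.charpoly_natDegree_eq_dim, Fintype.card_fin, hdim]
  exact (Polynomial.eq_of_monic_of_dvd_of_natDegree_le hf (Matrix.charpoly_monic B) h1 h2.le)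

/-- the norm to `O` of an approximation of `(x - X)^n` by units -/
theorem norm_step {O S T : Type} [CommRing O] [Nontrivial O] [CommRing S] [CommRing T]
    (A : O[X]) (hA : A.Monic) (φ : O →+* S) (π : S →+* T) (q : S) (hq : π q = 0) (x : S) (n E : ℕ)
    (hE : ∀ ε : O, IsUnit ε → ε ^ E = 1)
    (u v a : O[X]) (huv : u * v = 1 + A * a) (b c : S[X])
    (h : (C x - X) ^ n = u.map φ + A.map φ * b + C q * c) :
    π (((A.map φ).eval x ^ n) ^ E) = 1 := by
  obtain ⟨d, B, rfl⟩ := exists_companion A hA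
  let B' : Matrix (Fin d) (Fin d) S := B.map φ
  have hB' : B'.charpoly = B.charpoly.map φ := Matrix.charpoly_map B φ
  have hu : aeval B u * aeval B v = 1 := by
    rw [← map_mul, huv, map_add, map_mul, map_one, Matrix.aeval_self_charpoly, zero_mul, add_zero]
  have hdet : (aeval B u).det ^ E = 1 := by
    refine hE _ (IsUnit.of_mul_eq_one (aeval B v).det ?_)
    rw [← Matrix.det_mul, hu, Matrix.det_one]
  have h1 : aeval B' (C x - X) = Matrix.scalar _ x - B' := by
    rw [map_sub, aeval_C, aeval_X]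
    rfl
  have h2 : (aeval B' (C x - X)).det = (B.charpoly.map φ).eval x := by
    rw [h1, ← Matrix.eval_charpoly, hB']
  have h3 : aeval B' (u.map φ) = (aeval B u).map φ := by
    have e := Polynomial.map_aeval_eq_aeval_map (S := Matrix (Fin d) (Fin d) O)
      (T := S) (U := Matrix (Fin d) (Fin d) S) (φ := φ)
      (ψ := φ.mapMatrix) (by
        ext y i j
        by_cases hij : i = j
        · subst hij
          simp [Matrix.algebraMap_matrix_apply]
        · simp [Matrix.algebraMap_matrix_apply, hij]) u B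
    exact e.symm
  have h4 : aeval B' ((C x - X) ^ n) = (aeval B u).map φ + q • aeval B' c := by
    rw [h, map_add, map_add, map_mul, map_mul, h3, aeval_C]
    have : aeval B' (B.charpoly.map φ) = 0 := by
      rw [← hB']
      exact Matrix.aeval_self_charpoly B'
    rw [this, zero_mul, add_zero, Algebra.smul_def]
  have h5 : (B.charpoly.map φ).eval x ^ n = ((aeval B u).map φ + q • aeval B' c).det := by
    rw [← h4, map_pow, Matrix.det_pow, h2]
  have h6 : π ((B.charpoly.map φ).eval x ^ n) = (π.comp φ) (aeval B u).det := by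
    rw [h5, RingHom.map_det]
    have e : π.mapMatrix ((aeval B u).map φ + q • aeval B' c) =
        (π.comp φ).mapMatrix (aeval B u) := by
      ext i j
      simp only [RingHom.mapMatrix_apply, Matrix.map_apply, Matrix.add_apply, Matrix.smul_apply,
        smul_eq_mul, map_add, map_mul, hq, zero_mul, add_zero, RingHom.comp_apply]
    rw [e, ← RingHom.map_det]
  rw [map_pow, h6, ← map_pow, hdet, map_one]

/-- the functor `R ↦ R[ω]` -/
def qmap {R R' : Type} [CommRing R] [CommRing R'] (φ : R →+* R') (a b : R) :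
    QuadraticAlgebra R a b →+* QuadraticAlgebra R' (φ a) (φ b) where
  toFun x := ⟨φ x.re, φ x.im⟩
  map_one' := by
    ext
    · exact map_one φ
    · exact map_zero φ
  map_zero' := by
    ext
    · exact map_zero φ
    · exact map_zero φ
  map_add' x y := by ext <;> simp
  map_mul' x y := by ext <;> simp

/-- the units of an imaginary quadratic order of discriminant at most `-4` -/
theorem unit_pow {s t : ℤ} (hD : s ^ 2 + 4 ≤ 4 * t) (ε : QuadraticAlgebra ℤ (-t) s) (hε : IsUnit ε) :
    ε ^ 4 = 1 := by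
  obtain ⟨x, y⟩ := ε
  have h1 : IsUnit (QuadraticAlgebra.norm (⟨x, y⟩ : QuadraticAlgebra ℤ (-t) s)) := hε.map _
  rw [QuadraticAlgebra.norm_def, Int.isUnit_iff] at h1
  simp only at h1
  have h2 : (2 * x + s * y) ^ 2 + (4 * t - s ^ 2) * y ^ 2 = 4 := by
    rcases h1 with h1 | h1
    · linear_combination 4 * h1
    · exfalso
      have h3 : (2 * x + s * y) ^ 2 + (4 * t - s ^ 2) * y ^ 2 = -4 := by linear_combination 4 * h1
      nlinarith [sq_nonneg (2 * x + s * y), mul_nonneg (by linarith : 0 ≤ 4 * t - s ^ 2) (sq_nonneg y)]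
  have h3 : y ^ 2 ≤ 1 := by
    nlinarith [sq_nonneg (2 * x + s * y), mul_nonneg (by linarith : 0 ≤ 4 * t - s ^ 2 - 4) (sq_nonneg y)]
  have h4 : y = 0 ∨ y = 1 ∨ y = -1 := by
    have h5 : |y| ≤ 1 := by
      rw [← sq_abs] at h3
      nlinarith [abs_nonneg y]
    have := abs_le.1 h5
    omega
  have key : y = 0 ∧ x ^ 2 = 1 ∨ y ^ 2 = 1 ∧ 2 * x + s * y = 0 ∧ 4 * t - s ^ 2 = 4 := by
    rcases h4 with h | h | h
    · left
      subst h
      refine ⟨rfl, ?_⟩
      nlinarith [h2]
    · right
      subst h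
      have h6 : (2 * x + s * 1) ^ 2 ≤ 0 := by nlinarith [h2]
      have h7 : 2 * x + s * 1 = 0 := by
        have := sq_nonneg (2 * x + s * 1)
        exact pow_eq_zero_iff (two_ne_zero) |>.1 (le_antisymm h6 this)
      refine ⟨by norm_num, h7, ?_⟩
      rw [h7] at h2
      linarith
    · right
      subst h
      have h6 : (2 * x + s * (-1)) ^ 2 ≤ 0 := by nlinarith [h2]
      have h7 : 2 * x + s * (-1) = 0 := by
        have := sq_nonneg (2 * x + s * (-1))
        exact pow_eq_zero_iff (two_ne_zero) |>.1 (le_antisymm h6 this)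
      refine ⟨by norm_num, h7, ?_⟩
      rw [h7] at h2
      linarith
  rcases key with ⟨hy, hx⟩ | ⟨hy, hx, hD'⟩
  · have e : (⟨x, y⟩ : QuadraticAlgebra ℤ (-t) s) ^ 2 = 1 := by
      rw [sq]
      ext
      · simp only [QuadraticAlgebra.re_mul, QuadraticAlgebra.re_one, hy]
        linear_combination hx
      · simp only [QuadraticAlgebra.im_mul, QuadraticAlgebra.im_one, hy]
        ring
    calc (⟨x, y⟩ : QuadraticAlgebra ℤ (-t) s) ^ 4 = (⟨x, y⟩ ^ 2) ^ 2 := by rw [← pow_mul]
      _ = 1 := by rw [e, one_pow]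
  · have hx2 : 4 * x ^ 2 = 4 * (t - 1) := by
      have : 4 * x ^ 2 = s ^ 2 * y ^ 2 := by linear_combination (2 * x - s * y) * hx
      rw [this, hy]
      linarith
    have e : (⟨x, y⟩ : QuadraticAlgebra ℤ (-t) s) ^ 2 = -1 := by
      rw [sq]
      ext
      · simp only [QuadraticAlgebra.re_mul, QuadraticAlgebra.re_one, QuadraticAlgebra.re_neg]
        nlinarith [hx2, hy]
      · simp only [QuadraticAlgebra.im_mul, QuadraticAlgebra.im_one, QuadraticAlgebra.im_neg]
        linear_combination y * hx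
    calc (⟨x, y⟩ : QuadraticAlgebra ℤ (-t) s) ^ 4 = (⟨x, y⟩ ^ 2) ^ 2 := by rw [← pow_mul]
      _ = 1 := by rw [e]; norm_num

end Pool.Agent.U757.WG
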