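import Pool.Agent.U757.WG.A
import Pool.Agent.U188.WG.E

set_option autoImplicit false

open Polynomial

namespace Pool.Agent.U757.WG

open Pool.Agent.N874.WG Pool.Agent.U188.WG

/-- evaluation of `R[ω]` at a complex number -/
def toC {s t : ℤ} (ω : ℂ) (hω : ω ^ 2 = s * ω - t) : QuadraticAlgebra ℤ (-t) s →+* ℂ where
  toFun x := (x.re : ℂ) + (x.im : ℂ) * ω
  map_one' := by
    change ((1 : ℤ) : ℂ) + ((0 : ℤ) : ℂ) * ω = 1
    simp
  map_zero' := by
    change ((0 : ℤ) : ℂ) + ((0 : ℤ) : ℂ) * ω = 0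
    simp
  map_add' x y := by
    simp only [QuadraticAlgebra.re_add, QuadraticAlgebra.im_add]
    push_cast
    ring
  map_mul' x y := by
    simp only [QuadraticAlgebra.re_mul, QuadraticAlgebra.im_mul]
    push_cast
    linear_combination (-(x.im : ℂ) * (y.im : ℂ)) * hω

theorem decomp {s t : ℤ} (F : (QuadraticAlgebra ℤ (-t) s)[X]) :
    ∃ P Q : ℤ[X], F = P.map (Int.castRingHom _) +
      C (⟨0, 1⟩ : QuadraticAlgebra ℤ (-t) s) * Q.map (Int.castRingHom _) := by
  induction F using Polynomial.induction_on' with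
  | add F G hF hG =>
    obtain ⟨P, Q, hF⟩ := hF
    obtain ⟨P', Q', hG⟩ := hG
    refine ⟨P + P', Q + Q', ?_⟩
    rw [hF, hG, Polynomial.map_add, Polynomial.map_add]
    ring
  | monomial n c =>
    refine ⟨monomial n c.re, monomial n c.im, ?_⟩
    rw [map_monomial, map_monomial, C_mul_monomial, ← map_add]
    congr 1
    ext <;> simp

theorem conj_pow {p : ℕ} [Fact p.Prime] {s t : ℤ} (hD : s ^ 2 + 4 ≤ 4 * t)
    {a b f : ℤ[X]} (ha : a.Monic) (hab : b.degree < a.degree) {ω : ℂ} (hω : ω ^ 2 = s * ω - t)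
    (hdvd : (a.map (Int.castRingHom ℂ) + C ω * b.map (Int.castRingHom ℂ)) ∣
      f.map (Int.castRingHom ℂ))
    {z : ℤ_[p]} {n : ℕ} (h : Approx p f z n) (hz : IsIntegral ℤ z) {w : ℂ}
    (hw : aeval w (minpoly ℤ z) = 0) {ω' : ℂ} (hω' : ω' ^ 2 = s * ω' - t) :
    (aeval w a + ω' * aeval w b) ^ (n * 4) = 1 := by
  let O := QuadraticAlgebra ℤ (-t) s
  let ι : ℤ →+* O := Int.castRingHom O
  let A : O[X] := a.map ι + C (⟨0, 1⟩ : O) * b.map ι
  have hA : A.Monic := by
    refine (ha.map ι).add_of_left ?_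
    rw [ha.degree_map]
    refine lt_of_le_of_lt ?_ hab
    refine (degree_mul_le _ _).trans ?_
    have h1 : (C (⟨0, 1⟩ : O)).degree ≤ 0 := degree_C_le
    have h2 : (b.map ι).degree ≤ b.degree := degree_map_le
    calc (C (⟨0, 1⟩ : O)).degree + (b.map ι).degree ≤ 0 + b.degree := add_le_add h1 h2
      _ = b.degree := zero_add _
  have hinj : Function.Injective (toC ω hω) := by
    rw [injective_iff_map_eq_zero]
    rintro ⟨x, y⟩ hxy
    have h1 : (x : ℂ) + (y : ℂ) * ω = 0 := hxy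
    have h2 : ((2 * x + s * y : ℤ) : ℂ) ^ 2 + ((4 * t - s ^ 2 : ℤ) : ℂ) * (y : ℂ) ^ 2 = 0 := by
      push_cast
      linear_combination (4 * (x : ℂ) + 4 * s * y - 4 * y * ω) * h1 + 4 * (y : ℂ) ^ 2 * hω
    have h3 : (2 * x + s * y) ^ 2 + (4 * t - s ^ 2) * y ^ 2 = 0 := by exact_mod_cast h2
    have h4 : y ^ 2 ≤ 0 := by
      nlinarith [sq_nonneg (2 * x + s * y), mul_nonneg (by linarith : 0 ≤ 4 * t - s ^ 2 - 4) (sq_nonneg y)]
    have h5 : y = 0 := pow_eq_zero_iff two_ne_zero |>.1 (le_antisymm h4 (sq_nonneg y))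
    subst h5
    have h6 : x = 0 := by
      have : (x : ℂ) = 0 := by simpa using h1
      exact_mod_cast this
    subst h6
    rfl
  have hcomp : (toC ω hω).comp ι = Int.castRingHom ℂ := RingHom.ext_int _ _
  have hAC : A.map (toC ω hω) = a.map (Int.castRingHom ℂ) + C ω * b.map (Int.castRingHom ℂ) := by
    simp only [A, Polynomial.map_add, Polynomial.map_mul, Polynomial.map_map, map_C, hcomp]
    congr 3
    simp [toC]
  have hdvdO : A ∣ f.map ι := by
    rw [← Polynomial.map_dvd_map (toC ω hω) hinj hA, hAC, Polynomial.map_map, hcomp]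
    exact hdvd
  obtain ⟨G, hG⟩ := hdvdO
  let φ : ℤ →+* ℤ_[p] := Int.castRingHom ℤ_[p]
  let S := QuadraticAlgebra ℤ_[p] (φ (-t)) (φ s)
  let ψ : O →+* S := qmap φ (-t) s
  let j : ℤ_[p] →+* S := algebraMap ℤ_[p] S
  have hjφ : j.comp φ = ψ.comp ι := RingHom.ext_int _ _
  have hy : ((A.map ψ).eval (j z) ^ n) ^ 4 = 1 := by
    have hk : ∀ k : ℕ, qmap (PadicInt.toZModPow k) (φ (-t)) (φ s) (((A.map ψ).eval (j z) ^ n) ^ 4) = 1 := by
      intro k
      obtain ⟨u, ⟨v, a0, huv⟩, b0, c0, hk⟩ := h k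
      refine norm_step A hA ψ (qmap (PadicInt.toZModPow k) (φ (-t)) (φ s)) (j ((p : ℤ_[p]) ^ k)) ?_
        (j z) n 4 (unit_pow hD) (u.map ι) (v.map ι) (G * a0.map ι) ?_ (G.map ψ * b0.map j) (c0.map j) ?_
      · have h0 : PadicInt.toZModPow k ((p : ℤ_[p]) ^ k) = 0 := by
          rw [map_pow, map_natCast, ← Nat.cast_pow, ZMod.natCast_self]
        ext
        · exact h0
        · exact map_zero (PadicInt.toZModPow k)
      · rw [← mul_assoc, ← hG, ← Polynomial.map_mul, huv]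
        simp
      · have h1 := congrArg (Polynomial.map j) hk
        simp only [Polynomial.map_pow, Polynomial.map_sub, Polynomial.map_add, Polynomial.map_mul,
          map_C, map_X, toP, Polynomial.map_map] at h1
        have h2 : u.map (j.comp (Int.castRingHom ℤ_[p])) = (u.map ι).map ψ := by
          rw [Polynomial.map_map, ← hjφ]
        have h3 : f.map (j.comp (Int.castRingHom ℤ_[p])) = A.map ψ * G.map ψ := by
          rw [← Polynomial.map_mul, ← hG, Polynomial.map_map, ← hjφ]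
        rw [h2, h3] at h1
        rw [h1]
        ring
    ext
    · rw [← PadicInt.ext_of_toZModPow]
      intro k
      have h1 : PadicInt.toZModPow k (((A.map ψ).eval (j z) ^ n) ^ 4).re = 1 :=
        congrArg QuadraticAlgebra.re (hk k)
      exact h1.trans (map_one (PadicInt.toZModPow k)).symm
    · rw [← PadicInt.ext_of_toZModPow]
      intro k
      have h1 : PadicInt.toZModPow k (((A.map ψ).eval (j z) ^ n) ^ 4).im = 0 :=
        congrArg QuadraticAlgebra.im (hk k)
      exact h1.trans (map_zero (PadicInt.toZModPow k)).symm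
  obtain ⟨P, Q, hPQ⟩ := decomp (A ^ (n * 4) - 1)
  have hev : ∀ R : ℤ[X], ((R.map ι).map ψ).eval (j z) = j (aeval z R) := by
    intro R
    rw [Polynomial.map_map, ← hjφ, eval_map, aeval_def, Polynomial.hom_eval₂]
    rfl
  have h0 : j (aeval z P) + ψ ⟨0, 1⟩ * j (aeval z Q) = 0 := by
    have h1 : ((A ^ (n * 4) - 1).map ψ).eval (j z) = 0 := by
      rw [Polynomial.map_sub, Polynomial.map_pow, Polynomial.map_one, eval_sub, eval_pow, eval_one,
        pow_mul, hy, sub_self]
    rw [hPQ, Polynomial.map_add, Polynomial.map_mul, map_C, eval_add, eval_mul, eval_C] at h1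
    rw [← hev P, ← hev Q]
    exact h1
  have hP : aeval z P = 0 := by
    have h1 : aeval z P + (φ 0 * aeval z Q + φ (-t) * φ 1 * 0) = 0 :=
      congrArg QuadraticAlgebra.re h0
    simpa using h1
  have hQ : aeval z Q = 0 := by
    have h1 : 0 + (φ 0 * 0 + φ 1 * aeval z Q + φ s * φ 1 * 0) = 0 :=
      congrArg QuadraticAlgebra.im h0
    simpa using h1
  have hPw : aeval w P = 0 := (same hz hw P).2 hP
  have hQw : aeval w Q = 0 := (same hz hw Q).2 hQ
  let θ := toC ω' hω'
  have hcomp' : θ.comp ι = algebraMap ℤ ℂ := RingHom.ext_int _ _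
  have hθ : ∀ R : ℤ[X], (R.map ι).eval₂ θ w = aeval w R := by
    intro R
    rw [eval₂_map, hcomp', aeval_def]
  have hω1 : θ ⟨0, 1⟩ = ω' := by simp [θ, toC]
  have h1 : (A ^ (n * 4) - 1).eval₂ θ w = 0 := by
    rw [hPQ, eval₂_add, eval₂_mul, eval₂_C]
    have e1 := hθ P
    have e2 := hθ Q
    rw [hPw] at e1
    rw [hQw] at e2
    simp only [ι] at e1 e2
    rw [e1, e2, mul_zero, add_zero]
  have h2 : A.eval₂ θ w = aeval w a + ω' * aeval w b := by
    simp only [A]
    rw [eval₂_add, eval₂_mul, eval₂_C, hθ a, hθ b, hω1]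
  rw [eval₂_sub, eval₂_pow, h2, eval₂_one, sub_eq_zero] at h1
  exact h1

/-- Kronecker's theorem for the value `b(z)` -/
theorem kron {p : ℕ} [Fact p.Prime] {z : ℤ_[p]} (hz : IsIntegral ℤ z) (b : ℤ[X])
    (h : ∀ w : ℂ, aeval w (minpoly ℤ z) = 0 → ‖aeval w b‖ ≤ 1) :
    aeval z b = 0 ∨ ∀ w : ℂ, aeval w (minpoly ℤ z) = 0 → ‖aeval w b‖ = 1 := by
  by_cases hb : aeval z b = 0
  · exact Or.inl hb
  right
  intro w hw0
  have hw : IsIntegral ℤ w := ⟨minpoly ℤ z, minpoly.monic hz, hw0⟩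
  have hwQ : IsIntegral ℚ w := hw.tower_top
  let K : IntermediateField ℚ ℂ := IntermediateField.adjoin ℚ {w}
  have : FiniteDimensional ℚ K := IntermediateField.adjoin.finiteDimensional hwQ
  have : NumberField K := { to_charZero := inferInstance, to_finiteDimensional := inferInstance }
  let γ : K := IntermediateField.AdjoinSimple.gen ℚ w
  have hγ : (γ : ℂ) = w := IntermediateField.AdjoinSimple.coe_gen ℚ w
  have hcoe : ∀ (x : K) (P : ℤ[X]), ((aeval x P : K) : ℂ) = aeval (x : ℂ) P := fun x P =>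
    (Polynomial.aeval_algebraMap_apply ℂ x P).symm
  have h0 : aeval γ (minpoly ℤ z) = 0 := Subtype.ext (by rw [hcoe, hγ, hw0]; rfl)
  have hγi : IsIntegral ℤ γ := ⟨minpoly ℤ z, minpoly.monic hz, h0⟩
  have hbi : IsIntegral ℤ (aeval γ b) := by
    let γ' : integralClosure ℤ K := ⟨γ, hγi⟩
    have e : aeval γ b = algebraMap (integralClosure ℤ K) K (aeval γ' b) :=
      Polynomial.aeval_algebraMap_apply K γ' b
    rw [e]
    exact (aeval γ' b).2
  have hx0 : aeval γ b ≠ 0 := by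
    intro h1
    apply hb
    rw [← same hz hw0, ← hγ, ← hcoe, h1]
    rfl
  have hφ : ∀ (φ : K →+* ℂ) (P : ℤ[X]), φ (aeval γ P) = aeval (φ γ) P := by
    intro φ P
    rw [aeval_def, aeval_def, Polynomial.hom_eval₂]
    congr 1
    exact RingHom.ext_int _ _
  obtain ⟨n, hn, hn1⟩ := NumberField.Embeddings.pow_eq_one_of_norm_le_one K ℂ (x := aeval γ b) hx0
    hbi (by
      intro φ
      rw [hφ]
      refine h _ ?_
      rw [← hφ, h0, map_zero])
  have h2 : (aeval w b) ^ n = 1 := by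
    have := congrArg (fun t : K => (t : ℂ)) hn1
    rw [← hγ, ← hcoe]
    exact_mod_cast this
  exact Complex.norm_eq_one_of_pow_eq_one h2 hn.ne'

end Pool.Agent.U757.WG
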