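import Pool.Agent.U757.WG.B

set_option autoImplicit false

open Polynomial

namespace Pool.Agent.U757.WG

open Pool.Agent.N874.WG Pool.Agent.U188.WG

/-- the two cases for a weakly global point -/
theorem cases {p : ℕ} [Fact p.Prime] {s t : ℤ} (hD : s ^ 2 + 4 ≤ 4 * t)
    {a b f : ℤ[X]} (ha : a.Monic) (hab : b.degree < a.degree) {ω : ℂ} (hω : ω ^ 2 = s * ω - t)
    (hdvd : (a.map (Int.castRingHom ℂ) + C ω * b.map (Int.castRingHom ℂ)) ∣
      f.map (Int.castRingHom ℂ))
    {z : ℤ_[p]} {n : ℕ} (hn : 0 < n) (h : Approx p f z n) (hz : IsIntegral ℤ z) :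
    (aeval z b = 0 ∧ ∀ w : ℂ, aeval w (minpoly ℤ z) = 0 → (aeval w a) ^ (n * 4) = 1) ∨
    (4 * t = s ^ 2 + 4 ∧ ∀ w : ℂ, aeval w (minpoly ℤ z) = 0 →
      aeval w (2 * a + C s * b) = 0 ∧ (aeval w b) ^ (n * 16) = 1) := by
  have hω' : ((s : ℂ) - ω) ^ 2 = s * ((s : ℂ) - ω) - t := by linear_combination hω
  have hn4 : n * 4 ≠ 0 := by omega
  have hroot : (2 * ω - s) ^ 2 = ((s ^ 2 - 4 * t : ℤ) : ℂ) := by
    push_cast
    linear_combination 4 * hω
  have hnr : ‖2 * ω - s‖ ^ 2 = 4 * t - s ^ 2 := by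
    rw [← norm_pow, hroot, Complex.norm_intCast]
    push_cast
    rw [abs_sub_comm, abs_of_nonneg]
    have : ((s ^ 2 + 4 : ℤ) : ℝ) ≤ ((4 * t : ℤ) : ℝ) := by exact_mod_cast hD
    push_cast at this
    linarith
  have hDR : (4 : ℝ) ≤ 4 * t - s ^ 2 := by
    have : ((s ^ 2 + 4 : ℤ) : ℝ) ≤ ((4 * t : ℤ) : ℝ) := by exact_mod_cast hD
    push_cast at this
    linarith
  have hU : ∀ w : ℂ, aeval w (minpoly ℤ z) = 0 → (aeval w a + ω * aeval w b) ^ (n * 4) = 1 :=
    fun w hw => conj_pow hD ha hab hω hdvd h hz hw hω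
  have hV : ∀ w : ℂ, aeval w (minpoly ℤ z) = 0 →
      (aeval w a + ((s : ℂ) - ω) * aeval w b) ^ (n * 4) = 1 :=
    fun w hw => conj_pow hD ha hab hω hdvd h hz hw hω'
  have hUV : ∀ w : ℂ, ‖(aeval w a + ω * aeval w b) - (aeval w a + ((s : ℂ) - ω) * aeval w b)‖ ^ 2 =
      (4 * t - s ^ 2) * ‖aeval w b‖ ^ 2 := by
    intro w
    have e : (aeval w a + ω * aeval w b) - (aeval w a + ((s : ℂ) - ω) * aeval w b) =
        (2 * ω - s) * aeval w b := by ring
    rw [e, norm_mul, mul_pow, hnr]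
  have hb4 : ∀ w : ℂ, aeval w (minpoly ℤ z) = 0 → (4 * t - s ^ 2) * ‖aeval w b‖ ^ 2 ≤ 4 := by
    intro w hw
    rw [← hUV w]
    have h1 := Complex.norm_eq_one_of_pow_eq_one (hU w hw) hn4
    have h2 := Complex.norm_eq_one_of_pow_eq_one (hV w hw) hn4
    have h3 := norm_sub_le (aeval w a + ω * aeval w b) (aeval w a + ((s : ℂ) - ω) * aeval w b)
    rw [h1, h2] at h3
    nlinarith [norm_nonneg ((aeval w a + ω * aeval w b) - (aeval w a + ((s : ℂ) - ω) * aeval w b))]
  have hb1 : ∀ w : ℂ, aeval w (minpoly ℤ z) = 0 → ‖aeval w b‖ ≤ 1 := by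
    intro w hw
    have h1 := hb4 w hw
    have h2 : 4 * ‖aeval w b‖ ^ 2 ≤ 4 := by
      nlinarith [mul_nonneg (sub_nonneg.2 hDR) (sq_nonneg ‖aeval w b‖)]
    nlinarith [norm_nonneg (aeval w b)]
  rcases kron hz b hb1 with hb0 | hb0
  · left
    refine ⟨hb0, fun w hw => ?_⟩
    have h1 := hU w hw
    rw [(same hz hw b).2 hb0, mul_zero, add_zero] at h1
    exact h1
  · right
    have hEq : 4 * t = s ^ 2 + 4 := by
      obtain ⟨w, hw⟩ := exists_conj hz
      have h1 := hb4 w hw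
      rw [hb0 w hw] at h1
      have h2 : ((4 * t : ℤ) : ℝ) ≤ ((s ^ 2 + 4 : ℤ) : ℝ) := by
        push_cast
        linarith
      have h3 : 4 * t ≤ s ^ 2 + 4 := by exact_mod_cast h2
      omega
    refine ⟨hEq, fun w hw => ?_⟩
    have h1 := Complex.norm_eq_one_of_pow_eq_one (hU w hw) hn4
    have h2 := Complex.norm_eq_one_of_pow_eq_one (hV w hw) hn4
    have h3 := hUV w
    have hEqR : (4 * t - s ^ 2 : ℝ) = 4 := by
      have : ((4 * t : ℤ) : ℝ) = ((s ^ 2 + 4 : ℤ) : ℝ) := by rw [hEq]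
      push_cast at this
      linarith
    rw [hb0 w hw, hEqR] at h3
    have h4 := parallelogram_law_with_norm ℝ (aeval w a + ω * aeval w b)
      (aeval w a + ((s : ℂ) - ω) * aeval w b)
    rw [h1, h2] at h4
    have h5 : ‖(aeval w a + ω * aeval w b) + (aeval w a + ((s : ℂ) - ω) * aeval w b)‖ ^ 2 = 0 := by
      nlinarith
    have h6 : (aeval w a + ω * aeval w b) + (aeval w a + ((s : ℂ) - ω) * aeval w b) = 0 := by
      rw [← norm_eq_zero]
      exact pow_eq_zero_iff two_ne_zero |>.1 h5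
    have h7 : 2 * aeval w a + s * aeval w b = 0 := by linear_combination h6
    refine ⟨?_, ?_⟩
    · rw [map_add, map_mul, map_mul, aeval_C, map_ofNat]
      simpa using h7
    · have hEqC : (s : ℂ) ^ 2 = 4 * t - 4 := by
        have : ((s ^ 2 : ℤ) : ℂ) = ((4 * t - 4 : ℤ) : ℂ) := by
          congr 1
          omega
        push_cast at this
        exact this
      have h8 : (aeval w b) ^ 2 = -(aeval w a + ω * aeval w b) ^ 2 := by
        have e1 : 2 * (aeval w a + ω * aeval w b) = (2 * ω - s) * aeval w b := by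
          linear_combination h7
        have e2 : 4 * (aeval w a + ω * aeval w b) ^ 2 = (2 * ω - s) ^ 2 * (aeval w b) ^ 2 := by
          linear_combination (2 * (aeval w a + ω * aeval w b) + (2 * ω - s) * aeval w b) * e1
        rw [hroot] at e2
        push_cast at e2
        linear_combination (1 / 4 : ℂ) * e2 + (1 / 4 : ℂ) * (aeval w b) ^ 2 * hEqC
      calc (aeval w b) ^ (n * 16) = ((aeval w b) ^ 2) ^ (2 * (n * 4)) := by
            rw [← pow_mul]
            congr 1
            ring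
        _ = ((aeval w a + ω * aeval w b) ^ (n * 4)) ^ 4 := by
            rw [h8, pow_mul (-(aeval w a + ω * aeval w b) ^ 2) 2, neg_sq, ← pow_mul, ← pow_mul,
              ← pow_mul]
            congr 1
            ring
        _ = 1 := by rw [hU w hw, one_pow]

theorem natDeg_pos {a b f : ℤ[X]} {ω : ℂ} (ha : a.Monic) (hab : b.degree < a.degree) (hb : b ≠ 0)
    (hf : f.Monic)
    (hdvd : (a.map (Int.castRingHom ℂ) + C ω * b.map (Int.castRingHom ℂ)) ∣
      f.map (Int.castRingHom ℂ)) : 0 < f.natDegree := by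
  have h0 : 0 < a.natDegree := by
    rw [natDegree_pos_iff_degree_pos]
    exact lt_of_le_of_lt (zero_le_degree_iff.2 hb) hab
  have h1 : (C ω * b.map (Int.castRingHom ℂ)).degree < (a.map (Int.castRingHom ℂ)).degree := by
    rw [ha.degree_map]
    refine lt_of_le_of_lt ?_ hab
    refine (degree_mul_le _ _).trans ?_
    calc (C ω).degree + (b.map (Int.castRingHom ℂ)).degree ≤ 0 + b.degree :=
          add_le_add degree_C_le degree_map_le
      _ = b.degree := zero_add _
  have h2 : (a.map (Int.castRingHom ℂ) + C ω * b.map (Int.castRingHom ℂ)).natDegree =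
      a.natDegree := by
    rw [natDegree_add_eq_left_of_degree_lt h1, ha.natDegree_map]
  have h3 := natDegree_le_of_dvd hdvd (hf.map _).ne_zero
  rw [h2, hf.natDegree_map] at h3
  omega

theorem lin_ne {a b : ℤ[X]} (s : ℤ) (ha : a.Monic) (hab : b.degree < a.degree) :
    2 * a + C s * b ≠ 0 ∧ (2 * a + C s * b).natDegree ≤ a.natDegree := by
  have hb : b.coeff a.natDegree = 0 := by
    apply coeff_eq_zero_of_degree_lt
    rwa [← degree_eq_natDegree ha.ne_zero]
  constructor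
  · intro h
    have h1 := congrArg (fun P : ℤ[X] => P.coeff a.natDegree) h
    simp only [coeff_add, coeff_C_mul, hb, mul_zero, add_zero, coeff_zero] at h1
    have e : (2 * a : ℤ[X]) = C 2 * a := by simp
    rw [e, coeff_C_mul, ha.coeff_natDegree] at h1
    omega
  · refine natDegree_add_le_of_degree_le ?_ ?_
    · have e : (2 * a : ℤ[X]) = C 2 * a := by simp
      rw [e]
      exact natDegree_C_mul_le _ _
    · exact (natDegree_C_mul_le _ _).trans (natDegree_le_natDegree hab.le)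

theorem exists_omega (s t : ℤ) : ∃ ω : ℂ, ω ^ 2 = s * ω - t := by
  obtain ⟨r, hr⟩ := IsAlgClosed.exists_pow_nat_eq ((s : ℂ) ^ 2 - 4 * t) (n := 2) (by norm_num)
  exact ⟨(s + r) / 2, by linear_combination (1 / 4 : ℂ) * hr⟩

theorem comp_dvd {s t : ℤ} {h f : ℤ[X]} {ω : ℂ} (hω : ω ^ 2 = s * ω - t)
    (hf : (h ^ 2 + C s * h + C t) ∣ f) :
    (h.map (Int.castRingHom ℂ) + C ω * (1 : ℤ[X]).map (Int.castRingHom ℂ)) ∣
      f.map (Int.castRingHom ℂ) := by
  refine dvd_trans ?_ (Polynomial.map_dvd (Int.castRingHom ℂ) hf)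
  refine ⟨h.map (Int.castRingHom ℂ) + C ((s : ℂ) - ω), ?_⟩
  have e : C ω * C ((s : ℂ) - ω) = (C (t : ℂ) : ℂ[X]) := by
    rw [← C_mul]
    congr 1
    linear_combination -hω
  simp only [Polynomial.map_add, Polynomial.map_mul, Polynomial.map_pow, map_C, Polynomial.map_one,
    Int.coe_castRingHom]
  rw [C_sub] at e ⊢
  linear_combination -e

end Pool.Agent.U757.WG
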