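import Pool.Agent.U757.WG.C

set_option autoImplicit false

open Polynomial ComplexConjugate

namespace Pool.Agent.U757.WG

open Pool.Agent.N874.WG Pool.Agent.U188.WG

/-- the units of an imaginary quadratic order -/
theorem unit_pow12 {s t : ℤ} (hD : s ^ 2 + 3 ≤ 4 * t) (ε : QuadraticAlgebra ℤ (-t) s)
    (hε : IsUnit ε) : ε ^ 12 = 1 := by
  by_cases h4 : s ^ 2 + 4 ≤ 4 * t
  · rw [show (12 : ℕ) = 4 * 3 from rfl, pow_mul, unit_pow h4 ε hε, one_pow]
  have h3 : 4 * t = s ^ 2 + 3 := by omega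
  have hn : IsUnit (QuadraticAlgebra.norm ε) := hε.map _
  obtain ⟨x, y⟩ := ε
  rw [QuadraticAlgebra.norm_def, Int.isUnit_iff] at hn
  simp only at hn
  have h2 : (2 * x + s * y) ^ 2 + 3 * y ^ 2 = 4 ∧ x ^ 2 + s * x * y + t * y ^ 2 = 1 := by
    rcases hn with h1 | h1
    · exact ⟨by linear_combination 4 * h1 - y ^ 2 * h3, by linear_combination h1⟩
    · exfalso
      have h5 : (2 * x + s * y) ^ 2 + 3 * y ^ 2 = -4 := by
        linear_combination 4 * h1 - y ^ 2 * h3
      nlinarith [sq_nonneg (2 * x + s * y), sq_nonneg y]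
  obtain ⟨h2, hnorm⟩ := h2
  have hy : y ^ 2 ≤ 1 := by nlinarith [sq_nonneg (2 * x + s * y)]
  have hy' : y = 0 ∨ y ^ 2 = 1 := by
    rcases eq_or_ne y 0 with h | h
    · exact Or.inl h
    · right
      have : 1 ≤ y ^ 2 := by
        have := sq_nonneg y
        have h6 : y ^ 2 ≠ 0 := pow_ne_zero 2 h
        omega
      omega
  let T : ℤ := 2 * x + s * y
  have e2 : (⟨x, y⟩ : QuadraticAlgebra ℤ (-t) s) ^ 2 =
      (T : QuadraticAlgebra ℤ (-t) s) * ⟨x, y⟩ - 1 := by
    rw [sq]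
    ext
    · simp only [QuadraticAlgebra.re_mul, QuadraticAlgebra.re_sub, QuadraticAlgebra.re_one,
        QuadraticAlgebra.re_intCast, QuadraticAlgebra.im_intCast, T]
      push_cast
      linear_combination -hnorm
    · simp only [QuadraticAlgebra.im_mul, QuadraticAlgebra.im_sub, QuadraticAlgebra.im_one,
        QuadraticAlgebra.re_intCast, QuadraticAlgebra.im_intCast, T]
      push_cast
      ring
  rcases hy' with hy0 | hy1
  · subst hy0
    have hx : x ^ 2 = 1 := by linear_combination hnorm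
    have e : (⟨x, 0⟩ : QuadraticAlgebra ℤ (-t) s) ^ 2 = 1 := by
      rw [sq]
      ext
      · simp only [QuadraticAlgebra.re_mul, QuadraticAlgebra.re_one]
        linear_combination hx
      · simp only [QuadraticAlgebra.im_mul, QuadraticAlgebra.im_one]
        ring
    rw [show (12 : ℕ) = 2 * 6 from rfl, pow_mul, e, one_pow]
  · have hT : T ^ 2 = 1 := by
      have : T ^ 2 + 3 * y ^ 2 = 4 := h2
      rw [hy1] at this
      linarith
    have hT' : (T : QuadraticAlgebra ℤ (-t) s) ^ 2 = 1 := by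
      rw [← Int.cast_pow, hT, Int.cast_one]
    have e3 : (⟨x, y⟩ : QuadraticAlgebra ℤ (-t) s) ^ 3 = -(T : QuadraticAlgebra ℤ (-t) s) := by
      linear_combination ((⟨x, y⟩ : QuadraticAlgebra ℤ (-t) s) + (T : QuadraticAlgebra ℤ (-t) s)) * e2 +
        (⟨x, y⟩ : QuadraticAlgebra ℤ (-t) s) * hT'
    have e6 : (⟨x, y⟩ : QuadraticAlgebra ℤ (-t) s) ^ 6 = 1 := by
      rw [show (6 : ℕ) = 3 * 2 from rfl, pow_mul, e3, neg_sq, hT']
    rw [show (12 : ℕ) = 6 * 2 from rfl, pow_mul, e6, one_pow]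

theorem conj_pow12 {p : ℕ} [Fact p.Prime] {s t : ℤ} (hD : s ^ 2 + 3 ≤ 4 * t)
    {a b f : ℤ[X]} (ha : a.Monic) (hab : b.degree < a.degree) {ω : ℂ} (hω : ω ^ 2 = s * ω - t)
    (hdvd : (a.map (Int.castRingHom ℂ) + C ω * b.map (Int.castRingHom ℂ)) ∣
      f.map (Int.castRingHom ℂ))
    {z : ℤ_[p]} {n : ℕ} (h : Approx p f z n) (hz : IsIntegral ℤ z) {w : ℂ}
    (hw : aeval w (minpoly ℤ z) = 0) {ω' : ℂ} (hω' : ω' ^ 2 = s * ω' - t) :
    (aeval w a + ω' * aeval w b) ^ (n * 12) = 1 := by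
  let O := QuadraticAlgebra ℤ (-t) s
  let ι : ℤ →+* O := Int.castRingHom O
  let A : O[X] := a.map ι + C (⟨0, 1⟩ : O) * b.map ι
  have hA : A.Monic := by
    refine (ha.map ι).add_of_left ?_
    rw [ha.degree_map]
    refine lt_of_le_of_lt ?_ hab
    refine (degree_mul_le _ _).trans ?_
    have h1 : (C (⟨0, 1⟩ : O)).degree ≤ 0 := degree_C_le
    have h2 : (b.map ι).degree ≤ b.degree := degree_map_le
    calc (C (⟨0, 1⟩ : O)).degree + (b.map ι).degree ≤ 0 + b.degree := add_le_add h1 h2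
      _ = b.degree := zero_add _
  have hinj : Function.Injective (toC ω hω) := by
    rw [injective_iff_map_eq_zero]
    rintro ⟨x, y⟩ hxy
    have h1 : (x : ℂ) + (y : ℂ) * ω = 0 := hxy
    have h2 : ((2 * x + s * y : ℤ) : ℂ) ^ 2 + ((4 * t - s ^ 2 : ℤ) : ℂ) * (y : ℂ) ^ 2 = 0 := by
      push_cast
      linear_combination (4 * (x : ℂ) + 4 * s * y - 4 * y * ω) * h1 + 4 * (y : ℂ) ^ 2 * hω
    have h3 : (2 * x + s * y) ^ 2 + (4 * t - s ^ 2) * y ^ 2 = 0 := by exact_mod_cast h2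
    have h4 : y ^ 2 ≤ 0 := by
      nlinarith [sq_nonneg (2 * x + s * y), mul_nonneg (by linarith : 0 ≤ 4 * t - s ^ 2 - 3) (sq_nonneg y)]
    have h5 : y = 0 := pow_eq_zero_iff two_ne_zero |>.1 (le_antisymm h4 (sq_nonneg y))
    subst h5
    have h6 : x = 0 := by
      have : (x : ℂ) = 0 := by simpa using h1
      exact_mod_cast this
    subst h6
    rfl
  have hcomp : (toC ω hω).comp ι = Int.castRingHom ℂ := RingHom.ext_int _ _
  have hAC : A.map (toC ω hω) = a.map (Int.castRingHom ℂ) + C ω * b.map (Int.castRingHom ℂ) := by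
    simp only [A, Polynomial.map_add, Polynomial.map_mul, Polynomial.map_map, map_C, hcomp]
    congr 3
    simp [toC]
  have hdvdO : A ∣ f.map ι := by
    rw [← Polynomial.map_dvd_map (toC ω hω) hinj hA, hAC, Polynomial.map_map, hcomp]
    exact hdvd
  obtain ⟨G, hG⟩ := hdvdO
  let φ : ℤ →+* ℤ_[p] := Int.castRingHom ℤ_[p]
  let S := QuadraticAlgebra ℤ_[p] (φ (-t)) (φ s)
  let ψ : O →+* S := qmap φ (-t) s
  let j : ℤ_[p] →+* S := algebraMap ℤ_[p] S
  have hjφ : j.comp φ = ψ.comp ι := RingHom.ext_int _ _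
  have hy : ((A.map ψ).eval (j z) ^ n) ^ 12 = 1 := by
    have hk : ∀ k : ℕ, qmap (PadicInt.toZModPow k) (φ (-t)) (φ s) (((A.map ψ).eval (j z) ^ n) ^ 12) = 1 := by
      intro k
      obtain ⟨u, ⟨v, a0, huv⟩, b0, c0, hk⟩ := h k
      refine norm_step A hA ψ (qmap (PadicInt.toZModPow k) (φ (-t)) (φ s)) (j ((p : ℤ_[p]) ^ k)) ?_
        (j z) n 12 (unit_pow12 hD) (u.map ι) (v.map ι) (G * a0.map ι) ?_ (G.map ψ * b0.map j) (c0.map j) ?_
      · have h0 : PadicInt.toZModPow k ((p : ℤ_[p]) ^ k) = 0 := by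
          rw [map_pow, map_natCast, ← Nat.cast_pow, ZMod.natCast_self]
        ext
        · exact h0
        · exact map_zero (PadicInt.toZModPow k)
      · rw [← mul_assoc, ← hG, ← Polynomial.map_mul, huv]
        simp
      · have h1 := congrArg (Polynomial.map j) hk
        simp only [Polynomial.map_pow, Polynomial.map_sub, Polynomial.map_add, Polynomial.map_mul,
          map_C, map_X, toP, Polynomial.map_map] at h1
        have h2 : u.map (j.comp (Int.castRingHom ℤ_[p])) = (u.map ι).map ψ := by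
          rw [Polynomial.map_map, ← hjφ]
        have h3 : f.map (j.comp (Int.castRingHom ℤ_[p])) = A.map ψ * G.map ψ := by
          rw [← Polynomial.map_mul, ← hG, Polynomial.map_map, ← hjφ]
        rw [h2, h3] at h1
        rw [h1]
        ring
    ext
    · rw [← PadicInt.ext_of_toZModPow]
      intro k
      have h1 : PadicInt.toZModPow k (((A.map ψ).eval (j z) ^ n) ^ 12).re = 1 :=
        congrArg QuadraticAlgebra.re (hk k)
      exact h1.trans (map_one (PadicInt.toZModPow k)).symm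
    · rw [← PadicInt.ext_of_toZModPow]
      intro k
      have h1 : PadicInt.toZModPow k (((A.map ψ).eval (j z) ^ n) ^ 12).im = 0 :=
        congrArg QuadraticAlgebra.im (hk k)
      exact h1.trans (map_zero (PadicInt.toZModPow k)).symm
  obtain ⟨P, Q, hPQ⟩ := decomp (A ^ (n * 12) - 1)
  have hev : ∀ R : ℤ[X], ((R.map ι).map ψ).eval (j z) = j (aeval z R) := by
    intro R
    rw [Polynomial.map_map, ← hjφ, eval_map, aeval_def, Polynomial.hom_eval₂]
    rfl
  have h0 : j (aeval z P) + ψ ⟨0, 1⟩ * j (aeval z Q) = 0 := by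
    have h1 : ((A ^ (n * 12) - 1).map ψ).eval (j z) = 0 := by
      rw [Polynomial.map_sub, Polynomial.map_pow, Polynomial.map_one, eval_sub, eval_pow, eval_one,
        pow_mul, hy, sub_self]
    rw [hPQ, Polynomial.map_add, Polynomial.map_mul, map_C, eval_add, eval_mul, eval_C] at h1
    rw [← hev P, ← hev Q]
    exact h1
  have hP : aeval z P = 0 := by
    have h1 : aeval z P + (φ 0 * aeval z Q + φ (-t) * φ 1 * 0) = 0 :=
      congrArg QuadraticAlgebra.re h0
    simpa using h1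
  have hQ : aeval z Q = 0 := by
    have h1 : 0 + (φ 0 * 0 + φ 1 * aeval z Q + φ s * φ 1 * 0) = 0 :=
      congrArg QuadraticAlgebra.im h0
    simpa using h1
  have hPw : aeval w P = 0 := (same hz hw P).2 hP
  have hQw : aeval w Q = 0 := (same hz hw Q).2 hQ
  let θ := toC ω' hω'
  have hcomp' : θ.comp ι = algebraMap ℤ ℂ := RingHom.ext_int _ _
  have hθ : ∀ R : ℤ[X], (R.map ι).eval₂ θ w = aeval w R := by
    intro R
    rw [eval₂_map, hcomp', aeval_def]
  have hω1 : θ ⟨0, 1⟩ = ω' := by simp [θ, toC]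
  have h1 : (A ^ (n * 12) - 1).eval₂ θ w = 0 := by
    rw [hPQ, eval₂_add, eval₂_mul, eval₂_C]
    have e1 := hθ P
    have e2 := hθ Q
    rw [hPw] at e1
    rw [hQw] at e2
    simp only [ι] at e1 e2
    rw [e1, e2, mul_zero, add_zero]
  have h2 : A.eval₂ θ w = aeval w a + ω' * aeval w b := by
    simp only [A]
    rw [eval₂_add, eval₂_mul, eval₂_C, hθ a, hθ b, hω1]
  rw [eval₂_sub, eval₂_pow, h2, eval₂_one, sub_eq_zero] at h1
  exact h1

/-- a difference of roots of unity which is divisible by `√-3` -/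
theorem eis {U V β : ℂ} {N : ℕ} (hN : 0 < N) (hU : U ^ N = 1) (hV : V ^ N = 1)
    (hβ : -3 * β ^ 2 = (U - V) ^ 2) (hi : IsIntegral ℤ β) : β = 0 ∨ β ^ 2 = U * V := by
  have hUi : IsIntegral ℤ U := ⟨X ^ N - 1, monic_X_pow_sub_C 1 hN.ne', by simp [hU]⟩
  have hVi : IsIntegral ℤ V := ⟨X ^ N - 1, monic_X_pow_sub_C 1 hN.ne', by simp [hV]⟩
  let K : IntermediateField ℚ ℂ := IntermediateField.adjoin ℚ {U, V, β}
  have hfd : FiniteDimensional ℚ K := by
    apply IntermediateField.finiteDimensional_adjoin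
    intro x hx
    rcases hx with rfl | rfl | rfl
    · exact hUi.tower_top
    · exact hVi.tower_top
    · exact hi.tower_top
  have : NumberField K := { to_charZero := inferInstance, to_finiteDimensional := hfd }
  have hUK : U ∈ K := IntermediateField.subset_adjoin ℚ _ (by simp)
  have hVK : V ∈ K := IntermediateField.subset_adjoin ℚ _ (by simp)
  have hβK : β ∈ K := IntermediateField.subset_adjoin ℚ _ (by simp)
  let u : K := ⟨U, hUK⟩
  let v : K := ⟨V, hVK⟩
  let c : K := ⟨β, hβK⟩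
  have hu : u ^ N = 1 := Subtype.ext hU
  have hv : v ^ N = 1 := Subtype.ext hV
  have hc : c ^ 2 + c ^ 2 + c ^ 2 + (u - v) ^ 2 = 0 := by
    apply Subtype.ext
    change β ^ 2 + β ^ 2 + β ^ 2 + (U - V) ^ 2 = 0
    linear_combination -hβ
  have hinj : Function.Injective (algebraMap K ℂ) := (algebraMap K ℂ).injective
  have hui : IsIntegral ℤ u := (isIntegral_algebraMap_iff hinj).1 hUi
  have hvi : IsIntegral ℤ v := (isIntegral_algebraMap_iff hinj).1 hVi
  have hci : IsIntegral ℤ c := (isIntegral_algebraMap_iff hinj).1 hi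
  let κ : K := c ^ 2 * u ^ (N - 1) * v ^ (N - 1) - 1
  have hκi : IsIntegral ℤ κ := (((hci.pow 2).mul (hui.pow _)).mul (hvi.pow _)).sub isIntegral_one
  have hNs : N - 1 + 1 = N := Nat.sub_add_cancel hN
  have hφ : ∀ φ : K →+* ℂ, φ κ = ((‖φ u - φ v‖ ^ 2 / 3 - 1 : ℝ) : ℂ) ∧ ‖φ u‖ = 1 ∧ ‖φ v‖ = 1 := by
    intro φ
    have h1 : (φ u) ^ N = 1 := by rw [← map_pow, hu, map_one]
    have h2 : (φ v) ^ N = 1 := by rw [← map_pow, hv, map_one]
    have h3 : (φ c) ^ 2 + (φ c) ^ 2 + (φ c) ^ 2 + (φ u - φ v) ^ 2 = 0 := by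
      have := congrArg φ hc
      rw [map_add, map_add, map_add, map_pow, map_pow, map_sub, map_zero] at this
      exact this
    have hnu := Complex.norm_eq_one_of_pow_eq_one h1 hN.ne'
    have hnv := Complex.norm_eq_one_of_pow_eq_one h2 hN.ne'
    have hu0 : φ u ≠ 0 := by
      intro h
      rw [h, norm_zero] at hnu
      norm_num at hnu
    have hv0 : φ v ≠ 0 := by
      intro h
      rw [h, norm_zero] at hnv
      norm_num at hnv
    have cu : φ u * conj (φ u) = 1 := by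
      rw [Complex.mul_conj, Complex.normSq_eq_norm_sq, hnu]
      norm_num
    have cv : φ v * conj (φ v) = 1 := by
      rw [Complex.mul_conj, Complex.normSq_eq_norm_sq, hnv]
      norm_num
    have pu : (φ u) ^ (N - 1) = conj (φ u) := by
      apply mul_left_cancel₀ hu0
      rw [cu, mul_comm, ← pow_succ, hNs, h1]
    have pv : (φ v) ^ (N - 1) = conj (φ v) := by
      apply mul_left_cancel₀ hv0
      rw [cv, mul_comm, ← pow_succ, hNs, h2]
    refine ⟨?_, hnu, hnv⟩
    have h4 : ((‖φ u - φ v‖ ^ 2 : ℝ) : ℂ) = (φ u - φ v) * (conj (φ u) - conj (φ v)) := by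
      have e := Complex.mul_conj (φ u - φ v)
      rw [map_sub, Complex.normSq_eq_norm_sq] at e
      exact e.symm
    have h5 : φ κ = (φ c) ^ 2 * conj (φ u) * conj (φ v) - 1 := by
      simp only [κ, map_sub, map_mul, map_pow, map_one, pu, pv]
    rw [h5]
    push_cast at h4 ⊢
    rw [h4]
    linear_combination (1 / 3 : ℂ) * conj (φ u) * conj (φ v) * h3 -
      (1 / 3 : ℂ) * (φ u - φ v) * conj (φ v) * cu + (1 / 3 : ℂ) * (φ u - φ v) * conj (φ u) * cv
  have hle : ∀ φ : K →+* ℂ, ‖φ u - φ v‖ ^ 2 ≤ 4 := by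
    intro φ
    obtain ⟨-, h1, h2⟩ := hφ φ
    have h3 := norm_sub_le (φ u) (φ v)
    rw [h1, h2] at h3
    nlinarith [norm_nonneg (φ u - φ v)]
  by_cases hκ0 : κ = 0
  · right
    have h1 : c ^ 2 * u ^ (N - 1) * v ^ (N - 1) = 1 := sub_eq_zero.1 hκ0
    have h2 : c ^ 2 * (u ^ (N - 1) * u) * (v ^ (N - 1) * v) = u * v := by
      calc c ^ 2 * (u ^ (N - 1) * u) * (v ^ (N - 1) * v) =
          (c ^ 2 * u ^ (N - 1) * v ^ (N - 1)) * (u * v) := by ring
        _ = u * v := by rw [h1, one_mul]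
    rw [← pow_succ, ← pow_succ, hNs, hu, hv, mul_one, mul_one] at h2
    exact congrArg (fun x : K => (x : ℂ)) h2
  · left
    obtain ⟨n, hn, hn1⟩ := NumberField.Embeddings.pow_eq_one_of_norm_le_one K ℂ (x := κ) hκ0 hκi (by
      intro φ
      rw [(hφ φ).1, Complex.norm_real, Real.norm_eq_abs, abs_le]
      have h1 := hle φ
      have h2 := sq_nonneg ‖φ u - φ v‖
      constructor <;> linarith)
    have h1 : ((algebraMap K ℂ) κ) ^ n = 1 := by rw [← map_pow, hn1, map_one]
    have h2 := Complex.norm_eq_one_of_pow_eq_one h1 hn.ne'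
    rw [(hφ (algebraMap K ℂ)).1, Complex.norm_real, Real.norm_eq_abs] at h2
    have h3 := hle (algebraMap K ℂ)
    have h4 : ‖(algebraMap K ℂ) u - (algebraMap K ℂ) v‖ ^ 2 = 0 := by
      rcases (abs_eq zero_le_one).1 h2 with h5 | h5
      · linarith
      · linarith
    have h5 : U - V = 0 := by
      rw [← norm_eq_zero]
      exact pow_eq_zero_iff two_ne_zero |>.1 h4
    have h6 : β ^ 2 = 0 := by
      rw [h5] at hβ
      linear_combination (-1 / 3 : ℂ) * hβ
    exact pow_eq_zero_iff two_ne_zero |>.1 h6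

/-- the cases for a weakly global point, discriminant `-3` -/
theorem cases3 {p : ℕ} [Fact p.Prime] {s t : ℤ} (hD : 4 * t = s ^ 2 + 3)
    {a b f : ℤ[X]} (ha : a.Monic) (hab : b.degree < a.degree) {ω : ℂ} (hω : ω ^ 2 = s * ω - t)
    (hdvd : (a.map (Int.castRingHom ℂ) + C ω * b.map (Int.castRingHom ℂ)) ∣
      f.map (Int.castRingHom ℂ))
    {z : ℤ_[p]} {n : ℕ} (hn : 0 < n) (h : Approx p f z n) (hz : IsIntegral ℤ z) :
    (aeval z b = 0 ∧ ∀ w : ℂ, aeval w (minpoly ℤ z) = 0 → (aeval w a) ^ (n * 12) = 1) ∨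
    (∀ w : ℂ, aeval w (minpoly ℤ z) = 0 →
      (2 * aeval w a + s * aeval w b) ^ 2 = (aeval w b) ^ 2 ∧ (aeval w b) ^ (n * 24) = 1) := by
  have hω' : ((s : ℂ) - ω) ^ 2 = s * ((s : ℂ) - ω) - t := by linear_combination hω
  have hn4 : 0 < n * 12 := by omega
  have hDC : 4 * (t : ℂ) = (s : ℂ) ^ 2 + 3 := by exact_mod_cast congrArg (Int.cast : ℤ → ℂ) hD
  have hU : ∀ w : ℂ, aeval w (minpoly ℤ z) = 0 → (aeval w a + ω * aeval w b) ^ (n * 12) = 1 :=
    fun w hw => conj_pow12 hD.ge ha hab hω hdvd h hz hw hω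
  have hV : ∀ w : ℂ, aeval w (minpoly ℤ z) = 0 →
      (aeval w a + ((s : ℂ) - ω) * aeval w b) ^ (n * 12) = 1 :=
    fun w hw => conj_pow12 hD.ge ha hab hω hdvd h hz hw hω'
  by_cases hb : aeval z b = 0
  · left
    refine ⟨hb, fun w hw => ?_⟩
    have h1 := hU w hw
    rw [(same hz hw b).2 hb, mul_zero, add_zero] at h1
    exact h1
  · right
    intro w hw
    have hwi : IsIntegral ℤ w := ⟨minpoly ℤ z, minpoly.monic hz, hw⟩
    have hbi : IsIntegral ℤ (aeval w b) := by
      let w' : integralClosure ℤ ℂ := ⟨w, hwi⟩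
      have e : aeval w b = algebraMap (integralClosure ℤ ℂ) ℂ (aeval w' b) :=
        Polynomial.aeval_algebraMap_apply ℂ w' b
      rw [e]
      exact (aeval w' b).2
    have h1 := eis hn4 (hU w hw) (hV w hw) (β := aeval w b) (by
      linear_combination (-4 : ℂ) * (aeval w b) ^ 2 * hω + (aeval w b) ^ 2 * hDC) hbi
    have h2 : (aeval w b) ^ 2 = (aeval w a + ω * aeval w b) *
        (aeval w a + ((s : ℂ) - ω) * aeval w b) := by
      rcases h1 with h1 | h1
      · exact absurd ((same hz hw b).1 h1) hb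
      · exact h1
    refine ⟨?_, ?_⟩
    · linear_combination (-4 : ℂ) * h2 + 4 * (aeval w b) ^ 2 * hω - (aeval w b) ^ 2 * hDC
    · rw [show n * 24 = 2 * (n * 12) by ring, pow_mul, h2, mul_pow, hU w hw, hV w hw, one_mul]

end Pool.Agent.U757.WG
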